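import Pool.Agent.MNE.StmtsA

/-!
# MP_d2d93c_nt, row CLF (helper25): the `f`-adic closeness inequality from PIN
-/

set_option autoImplicit false

namespace Pool.Agent.MNE.H25

theorem clf (h : Pool.Agent.SHP.PinStmt) : ClfStmt := by
  intro a c f x y z k ha hc hf hac hcop hk hkx hxz hky hdvd ρ hρ
  have hf2 : (0 : ℤ) < f ^ 2 := by positivity
  have hb : (-(2 * f ^ 2) : ℤ) ≠ 0 := by
    have : (0 : ℤ) < 2 * f ^ 2 := by positivity
    omega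
  have hU : (a ^ (z - x) : ℤ) ≠ 0 ∨ ((-1 : ℤ) ^ x) ≠ 0 := Or.inl (pow_ne_zero _ ha.ne')
  obtain ⟨P, Q, hne, ⟨K, hK⟩, hP, hQ, -⟩ :=
    h x k hk hkx c (-(2 * f ^ 2)) hc hb (a ^ (z - x)) ((-1) ^ x) hU
  have hMb : c + -(2 * f ^ 2) = -a := by linarith
  rw [hMb] at hK
  -- the key identity
  have key : a ^ x * (Q * (-1) ^ x - P * a ^ (z - x))
      = (-(2 * f ^ 2)) ^ (2 * k) * K - P * (a ^ z - c ^ x) := by
    have h1 : a ^ z = a ^ x * a ^ (z - x) := by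
      rw [← pow_add]; congr 1; omega
    have h2 : (-a) ^ x = (-1) ^ x * a ^ x := by
      rw [← mul_pow]; congr 1; ring
    rw [← hK, h1, h2]
    ring
  have d1 : f ^ (4 * k) ∣ (-(2 * f ^ 2)) ^ (2 * k) * K := by
    refine Dvd.dvd.mul_right ?_ K
    refine ⟨2 ^ (2 * k), ?_⟩
    have e1 : (-(2 * f ^ 2)) ^ (2 * k) = (2 * f ^ 2) ^ (2 * k) := by
      rw [Even.neg_pow]
      exact even_two_mul k
    rw [e1, mul_pow, ← pow_mul]
    have e2 : 2 * (2 * k) = 4 * k := by ring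
    rw [e2]
    ring
  have d2 : f ^ (4 * k) ∣ P * (a ^ z - c ^ x) :=
    Dvd.dvd.mul_left ((pow_dvd_pow f hky).trans hdvd) P
  have d3 : f ^ (4 * k) ∣ a ^ x * (Q * (-1) ^ x - P * a ^ (z - x)) := by
    rw [key]
    exact dvd_sub d1 d2
  have d4 : f ^ (4 * k) ∣ Q * (-1) ^ x - P * a ^ (z - x) :=
    (IsCoprime.pow hcop).dvd_of_dvd_mul_left d3
  have hle : f ^ (4 * k) ≤ |Q * (-1) ^ x - P * a ^ (z - x)| :=
    Int.le_of_dvd (abs_pos.mpr hne) ((dvd_abs _ _).mpr d4)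
  -- to the reals
  have hleR : (f : ℝ) ^ (4 * k) ≤ |(Q : ℝ) * (-1) ^ x - P * (a : ℝ) ^ (z - x)| := by
    have := (Int.cast_le (R := ℝ)).mpr hle
    push_cast at this
    exact this
  have haR : (1 : ℝ) ≤ (a : ℝ) := by exact_mod_cast ha
  have haz : (1 : ℝ) ≤ (a : ℝ) ^ (z - x) := one_le_pow₀ haR
  set T : ℝ := 4 ^ k * (c : ℝ) ^ k * ρ ^ k * (1 + 2 * (f : ℝ) ^ 2 / (c * ρ)) ^ (x + k) with hT
  have habs : |((-(2 * f ^ 2) : ℤ) : ℝ)| = 2 * (f : ℝ) ^ 2 := by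
    push_cast
    rw [abs_neg, abs_of_nonneg]
    positivity
  have hPT : |(P : ℝ)| ≤ T := by
    have := hP ρ hρ
    rw [habs] at this
    exact this
  have hQT : |(Q : ℝ)| ≤ T := by
    have := hQ ρ hρ
    rw [habs] at this
    exact this
  have hT0 : 0 ≤ T := (abs_nonneg _).trans hPT
  have b1 : |(Q : ℝ) * (-1) ^ x| = |(Q : ℝ)| := by
    rw [abs_mul, abs_pow, abs_neg, abs_one, one_pow, mul_one]
  have b2 : |(P : ℝ) * (a : ℝ) ^ (z - x)| = |(P : ℝ)| * (a : ℝ) ^ (z - x) := by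
    rw [abs_mul, abs_of_nonneg (zero_le_one.trans haz)]
  calc (f : ℝ) ^ (4 * k) ≤ |(Q : ℝ) * (-1) ^ x - P * (a : ℝ) ^ (z - x)| := hleR
    _ ≤ |(Q : ℝ) * (-1) ^ x| + |(P : ℝ) * (a : ℝ) ^ (z - x)| := abs_sub _ _
    _ = |(Q : ℝ)| + |(P : ℝ)| * (a : ℝ) ^ (z - x) := by rw [b1, b2]
    _ ≤ T + T * (a : ℝ) ^ (z - x) := by gcongr
    _ ≤ T * (a : ℝ) ^ (z - x) + T * (a : ℝ) ^ (z - x) := by
        have := mul_le_mul_of_nonneg_left haz hT0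
        rw [mul_one] at this
        linarith
    _ = 2 * (a : ℝ) ^ (z - x) * T := by ring

end Pool.Agent.MNE.H25
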